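import Pool.Agent.Q124.ESN.RELG

/-! Project ESN (helper161), job CNTG: the count, over a number field. -/

set_option autoImplicit false

namespace Pool.Agent.Q124.ESN

open Polynomial NumberField IsDedekindDomain Finset Pool.Agent.Q161.ESN
open Pool.Agent.Q51.EL (Abv Par)

theorem sq_of {L : Type} [Field L] {α α' a q q' δ δ' η η' : L}
    (hα : α ≠ 0) (hq : q ≠ 0) (hη : η ≠ 0) (hη' : η' ≠ 0)
    (h : α = δ * η ^ 2) (h' : α' = δ' * η' ^ 2) (ha : a ≠ 0)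
    (e : α' * (a * q ^ 2) = α * (a * q' ^ 2)) : IsSquare (δ * δ') := by
  have e2 : α' * q ^ 2 = α * q' ^ 2 := by
    apply mul_left_cancel₀ ha
    calc a * (α' * q ^ 2) = α' * (a * q ^ 2) := by ring
      _ = α * (a * q' ^ 2) := e
      _ = a * (α * q' ^ 2) := by ring
  refine ⟨α * q' / (q * η * η'), ?_⟩
  have e3 : δ * δ' * (η ^ 2 * η' ^ 2 * q ^ 2) = α * (α' * q ^ 2) := by
    rw [h, h']; ring
  rw [e2] at e3
  have e4 : η ^ 2 * η' ^ 2 * q ^ 2 ≠ 0 :=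
    mul_ne_zero (mul_ne_zero (pow_ne_zero 2 hη) (pow_ne_zero 2 hη')) (pow_ne_zero 2 hq)
  apply mul_right_cancel₀ e4
  rw [e3]
  field_simp

theorem cne {K : Type} [Field K] [NumberField K] {x : 𝓞 K} (h : x ≠ 0) : (x : K) ≠ 0 := fun h' =>
  h (RingOfIntegers.ext (by simpa using h'))

/-- two elements with the same `μ` and `z` differ by a square -/
theorem isSquare_of_qd {F K : Type} [Field F] [Field K] [Algebra F K] {D D' μ s s' : F} {P : K}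
    (hD : D ≠ 0) (hs : s ≠ 0) (hP : P ≠ 0)
    (h : algebraMap F K D * P = algebraMap F K (μ * s ^ 2))
    (h' : algebraMap F K D' * P = algebraMap F K (μ * s' ^ 2)) : IsSquare (D * D') := by
  have hμ : μ ≠ 0 := by
    rintro rfl
    rw [zero_mul, map_zero] at h
    rcases mul_eq_zero.1 h with h1 | h1
    · exact hD ((map_eq_zero _).1 h1)
    · exact hP h1
  have h1 : algebraMap F K (D * (μ * s' ^ 2)) = algebraMap F K (D' * (μ * s ^ 2)) := by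
    rw [map_mul, map_mul (algebraMap F K) D', ← h, ← h']
    ring
  have h2 := (algebraMap F K).injective h1
  have h3 : D * s' ^ 2 = D' * s ^ 2 := by
    apply mul_left_cancel₀ hμ
    calc μ * (D * s' ^ 2) = D * (μ * s' ^ 2) := by ring
      _ = D' * (μ * s ^ 2) := h2
      _ = μ * (D' * s ^ 2) := by ring
  refine ⟨D * s' / s, ?_⟩
  have h4 : s ^ 2 ≠ 0 := pow_ne_zero 2 hs
  apply mul_right_cancel₀ h4
  calc D * D' * s ^ 2 = D * (D' * s ^ 2) := by ring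
    _ = D * (D * s' ^ 2) := by rw [h3]
    _ = _ := by field_simp

/-- **CNTG** -/
theorem cntg : S_NIG → S_RPX → S_RELG → S_LOCG → S_MN → S_CNTG := by
  classical
  intro hNIG hRPX hREL hLOC hMN C F K _ _ _ _ _ _ _ L _ _ _ th hDat V _ _ _ cd hV hsemi Bg hBg
  obtain ⟨hv2, hinv⟩ := hNIG C F K L th hDat V cd hV
  obtain ⟨ι, _, _, Lf, _, _, em, rp, hRp⟩ := hRPX F K V
  obtain ⟨Bl, hBl, hLOC⟩ := hLOC C F K L th hDat V cd hV
  obtain ⟨B, C1, K0, Qm, Qa, hBB, hB0, hC, hrel⟩ :=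
    hREL C F K L th hDat V cd hV ι Lf em rp hRp (Bg * Bl) (mul_ne_zero hBg hBl)
  have dg : Bg ∣ Bg * Bl := Dvd.intro _ rfl
  have dl : Bl ∣ B := (Dvd.intro_left _ rfl).trans hBB
  obtain ⟨T, hT⟩ : ∃ T : F → ((c : C) → L c) → Set (V → 𝓞 K),
      T = fun μ a => {z | (∃ (D : 𝓞 F) (α : (c : C) → 𝓞 (L c)), RG th cd B μ a D α z) ∧
        ∀ i, ∃ β : 𝓞 (Lf i), em i (β : Lf i) = (z (rp i) : K) ∧ Nice K0 β} := ⟨_, rfl⟩
  have hcb : ∀ (μ : F) (a : (c : C) → L c), ∃ C : ℝ, 0 < C ∧ ∀ X : ℝ, 1 ≤ X →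
      {z ∈ T μ a | ∃ N : 𝓞 F, ∏ t, z t = iO F K N ∧
        ((Ideal.absNorm (Ideal.span {N}) : ℕ) : ℝ) ≤ X}.Finite ∧
      (({z ∈ T μ a | ∃ N : 𝓞 F, ∏ t, z t = iO F K N ∧
        ((Ideal.absNorm (Ideal.span {N}) : ℕ) : ℝ) ≤ X}.ncard : ℕ) : ℝ) ≤ C * X := by
    intro μ a
    refine hMN F K V hv2 hsemi hinv ι Lf em rp hRp B K0 (T μ a) hB0 ?_ ?_
    · intro z hz
      rw [hT] at hz
      obtain ⟨⟨D, α, hz1⟩, hz2⟩ := hz
      exact ⟨hz1.rel.eqv, hz2⟩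
    · intro l hl hlB w φ hw hFb
      have h1 := hLOC B dl hB0 μ a l hl hlB w φ hw hFb
      have h2 : ∀ z ∈ T μ a, z ∈ {z : V → 𝓞 K | ∃ (D : 𝓞 F) (α : (c : C) → 𝓞 (L c)),
          RG th cd B μ a D α z} := by
        intro z hz
        rw [hT] at hz
        exact hz.1
      exact ⟨fun z hz => h1.one z (h2 z hz), fun z hz z' hz' => h1.two z (h2 z hz) z' (h2 z' hz')⟩
  choose Cb hCb0 hCb using hcb
  obtain ⟨Q, hQ⟩ : ∃ Q : Finset (F × ((c : C) → L c)), Q = Qm ×ˢ Qa := ⟨_, rfl⟩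
  refine ⟨(∑ p ∈ Q, Cb p.1 p.2) * (C1 + 1) + 1, ?_, ?_⟩
  · have : 0 ≤ ∑ p ∈ Q, Cb p.1 p.2 := Finset.sum_nonneg fun p _ => (hCb0 _ _).le
    positivity
  intro Fs hF1 hF2 X 𝒟 hX hD1 hD2
  have hCX : 1 ≤ (C1 + 1) * X := by nlinarith
  obtain ⟨U, hU⟩ : ∃ U : Finset (Σ _ : 𝓞 F, (c : C) → L c),
      U = 𝒟.sigma (fun D => Fintype.piFinset fun c => Fs c D) := ⟨_, rfl⟩
  have hUc : (∑ D ∈ 𝒟, ∏ c, (Fs c D).card) = U.card := by
    rw [hU, card_sigma]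
    refine sum_congr rfl fun D _ => ?_
    rw [Fintype.card_piFinset]
  have hUmem : ∀ x ∈ U, x.1 ∈ 𝒟 ∧ (∀ c, x.2 c ∈ Fs c x.1) := by
    intro x hx
    rw [hU, mem_sigma] at hx
    exact ⟨hx.1, fun c => Fintype.mem_piFinset.1 hx.2 c⟩
  have hex : ∀ x ∈ U, ∃ y : (F × ((c : C) → L c)) × (V → 𝓞 K),
      y.1 ∈ Q ∧ (∃ α : (c : C) → 𝓞 (L c), RG th cd B y.1.1 y.1.2 x.1 α y.2 ∧
        ∀ c, ∃ η : L c, η ≠ 0 ∧ (α c : L c) = x.2 c * η ^ 2) ∧
      (∀ i, ∃ β : 𝓞 (Lf i), em i (β : Lf i) = (y.2 (rp i) : K) ∧ Nice K0 β) ∧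
      ∃ N : 𝓞 F, ∏ t, y.2 t = iO F K N ∧ ((Ideal.absNorm (Ideal.span {N}) : ℕ) : ℝ) ≤
        C1 * ((Ideal.absNorm (Ideal.span {x.1}) : ℕ) : ℝ) := by
    intro x hx
    obtain ⟨h1, h2⟩ := hUmem x hx
    obtain ⟨μ, hμ, a, ha, α, z, k1, k2, k3, k4⟩ :=
      hrel x.1 x.2 (sqF_mono (hD1 _ h1).1 dg) (fun c => (hF1 c x.1 (x.2 c) (h2 c)).1)
        (fun c => gd1_mono (hF1 c x.1 (x.2 c) (h2 c)).2 dg)
    refine ⟨((μ, a), z), ?_, ⟨α, k1, k4⟩, k2, k3⟩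
    rw [hQ, mem_product]
    exact ⟨hμ, ha⟩
  choose! Ψ hΨ using hex
  obtain ⟨bx, hbx⟩ : ∃ bx : (F × ((c : C) → L c)) → Finset (V → 𝓞 K),
      ∀ p, (∀ z, z ∈ bx p ↔ z ∈ {z ∈ T p.1 p.2 | ∃ N : 𝓞 F, ∏ t, z t = iO F K N ∧
        ((Ideal.absNorm (Ideal.span {N}) : ℕ) : ℝ) ≤ (C1 + 1) * X}) ∧
        ((bx p).card : ℝ) ≤ Cb p.1 p.2 * ((C1 + 1) * X) := by
    refine ⟨fun p => (hCb p.1 p.2 ((C1 + 1) * X) hCX).1.toFinset, ?_⟩
    intro p
    refine ⟨fun z => Set.Finite.mem_toFinset _, ?_⟩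
    rw [← Set.ncard_eq_toFinset_card _ (hCb p.1 p.2 ((C1 + 1) * X) hCX).1]
    exact (hCb p.1 p.2 ((C1 + 1) * X) hCX).2
  obtain ⟨W, hW⟩ : ∃ W : Finset (Σ _ : (F × ((c : C) → L c)), (V → 𝓞 K)),
      W = Q.sigma (fun p => bx p) := ⟨_, rfl⟩
  have hWc : (W.card : ℝ) ≤ (∑ p ∈ Q, Cb p.1 p.2) * ((C1 + 1) * X) := by
    rw [hW, card_sigma]
    push_cast
    rw [Finset.sum_mul]
    exact Finset.sum_le_sum fun p _ => (hbx p).2
  have hle : U.card ≤ W.card := by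
    apply Finset.card_le_card_of_injOn
      (fun x => (⟨(Ψ x).1, (Ψ x).2⟩ : Σ _ : (F × ((c : C) → L c)), (V → 𝓞 K)))
    · intro x hx
      have hx' : x ∈ U := hx
      obtain ⟨h1, h2⟩ := hUmem x hx'
      obtain ⟨k1, ⟨α, k2, -⟩, k3, N, k4, k5⟩ := hΨ x hx'
      rw [mem_coe, hW, mem_sigma]
      refine ⟨k1, ?_⟩
      rw [(hbx _).1]
      refine ⟨?_, N, k4, k5.trans ?_⟩
      · rw [hT]
        exact ⟨⟨x.1, α, k2⟩, k3⟩
      · have h3 := (hD1 _ h1).2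
        nlinarith [Nat.cast_nonneg (α := ℝ) (Ideal.absNorm (Ideal.span {x.1}))]
    · intro x hx x' hx' hΨΨ
      have hxU : x ∈ U := hx
      have hxU' : x' ∈ U := hx'
      have hΨeq : Ψ x = Ψ x' := by
        have h1 := congrArg Sigma.fst hΨΨ
        have h2 := congrArg (fun z : (Σ _ : (F × ((c : C) → L c)), (V → 𝓞 K)) => z.2) hΨΨ
        exact Prod.ext h1 h2
      obtain ⟨h1, h2⟩ := hUmem x hxU
      obtain ⟨h1', h2'⟩ := hUmem x' hxU'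
      obtain ⟨-, ⟨α, hR, hα⟩, -, -⟩ := hΨ x hxU
      obtain ⟨-, ⟨α', hR', hα'⟩, -, -⟩ := hΨ x' hxU'
      rw [← hΨeq] at hR'
      have hP0 : (∏ t, ((Ψ x).2 t : K)) ≠ 0 := by
        rw [prod_ne_zero_iff]
        intro t _
        exact cne (hR.rel.ne t)
      have hD : x.1 = x'.1 := by
        by_contra hne
        obtain ⟨s, hs, e⟩ := hR.qd
        obtain ⟨s', -, e'⟩ := hR'.qd
        exact hD2 x.1 h1 x'.1 h1' hne (isSquare_of_qd (cne hR.rel.sq.1) hs hP0 e e')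
      have hδ : x.2 = x'.2 := by
        funext c
        by_contra hne
        have h3' := h2' c
        rw [← hD] at h3'
        obtain ⟨η, hη, he⟩ := hα c
        obtain ⟨η', hη', he'⟩ := hα' c
        obtain ⟨q, hq, hqa⟩ := hR.qa c
        obtain ⟨q', hq', hqa'⟩ := hR'.qa c
        have hα0 : ((α c : 𝓞 (L c)) : L c) ≠ 0 := cne (hR.rel.a0 c)
        obtain ⟨ι0⟩ : Nonempty (L c →ₐ[F] K) := by
          rw [← Fintype.card_pos_iff]
          exact (hDat c).odd.pos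
        have e1 := hqa ι0
        have e2 := hqa' ι0
        have hP : (∏ t ∈ univ.filter (fun t => cd t c ι0 = 1), ((Ψ x).2 t : K)) ≠ 0 := by
          rw [prod_ne_zero_iff]
          intro t _
          exact cne (hR.rel.ne t)
        have ha0 : (Ψ x).1.2 c ≠ 0 := by
          intro h
          rw [h, map_zero, zero_mul] at e1
          exact mul_ne_zero ((_root_.map_ne_zero ι0).2 hα0) hP e1
        refine hF2 c x.1 (x.2 c) (h2 c) (x'.2 c) h3' hne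
          (sq_of (q' := q') hα0 hq hη hη' he he' ha0 ?_)
        have hinj : Function.Injective ι0 := ι0.toRingHom.injective
        apply hinj
        apply mul_left_cancel₀ hP
        rw [map_mul, map_mul, map_mul, map_mul, map_pow, map_pow, ← e1, ← e2]
        ring
      obtain ⟨D, δ⟩ := x
      obtain ⟨D', δ'⟩ := x'
      simp only at hD hδ
      rw [hD, hδ]
  rw [hUc]
  have h1 : (U.card : ℝ) ≤ W.card := by exact_mod_cast hle
  have h2 := h1.trans hWc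
  have h3 : ((∑ p ∈ Q, Cb p.1 p.2) * (C1 + 1) + 1) * X =
      (∑ p ∈ Q, Cb p.1 p.2) * ((C1 + 1) * X) + X := by ring
  rw [h3]
  linarith

end Pool.Agent.Q124.ESN
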