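import Pool.Agent.Q161.ESN.Stm3
import Pool.Agent.Q241.ESM.Teq

/-! Project ESN (helper161), job RELG: from the Selmer elements to the function `z`, over a number field. -/

set_option autoImplicit false

namespace Pool.Agent.Q124.ESN

open Polynomial NumberField IsDedekindDomain Finset Pool.Agent.Q161.ESN
open Pool.Agent.Q51.EL (Abv Par)

section

variable {F K : Type} [Field F] [NumberField F] [Field K] [NumberField K] [Algebra F K]

theorem gd1_mono {L : Type} [Field L] [NumberField L] [Algebra F L] {th : 𝓞 L} {B B' : ℕ} {D : 𝓞 F} {δ : L}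
    (h : Gd1 F K th B D δ) (hB : B ∣ B') : Gd1 F K th B' D δ :=
  ⟨fun l hl hlB => h.even l hl fun h' => hlB (h'.trans hB),
    fun l hl hlB => h.odd l hl fun h' => hlB (h'.trans hB)⟩

theorem sqF_mono {B B' : ℕ} {D : 𝓞 F} (h : SqF B D) (hB : B ∣ B') : SqF B' D :=
  ⟨h.1, fun l hl hlB => h.2 l hl fun h' => hlB (h'.trans hB)⟩

theorem val_of_par0 {w : HeightOneSpectrum (𝓞 K)} {x : K}
    (h : Par w x 0) (h' : w.valuation K x = 1 ∨ w.valuation K x = WithZero.exp (-1 : ℤ)) :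
    w.valuation K x = 1 := by
  rcases h' with h' | h'
  · exact h'
  · obtain ⟨k, hk⟩ := h
    rw [h', WithZero.exp_inj] at hk
    omega

theorem val_of_par1 {w : HeightOneSpectrum (𝓞 K)} {x : K}
    (h : Par w x 1) (h' : w.valuation K x = 1 ∨ w.valuation K x = WithZero.exp (-1 : ℤ)) :
    w.valuation K x = WithZero.exp (-1 : ℤ) := by
  rcases h' with h' | h'
  · obtain ⟨k, hk⟩ := h
    rw [h', ← WithZero.exp_zero, WithZero.exp_inj] at hk
    omega
  · exact h'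

theorem zmod2_cases (x : ZMod 2) : x = 0 ∨ x = 1 := by
  revert x
  decide

theorem val_mv {g : K ≃ₐ[F] K} {w w' : HeightOneSpectrum (𝓞 K)} (h : Mv g w w') (x : K) :
    w'.valuation K (g x) = w.valuation K x :=
  Pool.Agent.Q241.ESM.val_mv (g := g.restrictScalars ℚ) h x

/-- an element of `F` lies in `w` iff it lies in the image of `w` -/
theorem mv_iO {g : K ≃ₐ[F] K} {w w' : HeightOneSpectrum (𝓞 K)} (h : Mv g w w') (x : 𝓞 F) :
    iO F K x ∈ w.asIdeal ↔ iO F K x ∈ w'.asIdeal := by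
  refine h (iO F K x) (iO F K x) ?_
  have e : ((iO F K x : 𝓞 K) : K) = algebraMap F K (x : F) := rfl
  rw [e, AlgEquiv.commutes]

/-- `B` and `l` are not both in `v` -/
theorem not_mem_of_abv {M : Type} [Field M] [NumberField M] {v : HeightOneSpectrum (𝓞 M)} {l B : ℕ} (hl : l.Prime)
    (hv : Abv v l) (hB : ¬ l ∣ B) : (B : 𝓞 M) ∉ v.asIdeal := by
  intro h
  have h1 : IsCoprime (l : ℤ) (B : ℤ) := Nat.isCoprime_iff_coprime.2 ((Nat.Prime.coprime_iff_not_dvd hl).2 hB)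
  obtain ⟨a, b, hab⟩ := h1
  have h2 : ((a : 𝓞 M)) * (l : 𝓞 M) + (b : 𝓞 M) * (B : 𝓞 M) = 1 := by
    have := congrArg (fun x : ℤ => (x : 𝓞 M)) hab
    push_cast at this
    exact this
  refine v.isPrime.ne_top ((Ideal.eq_top_iff_one _).2 ?_)
  rw [← h2]
  exact Ideal.add_mem _ (Ideal.mul_mem_left _ _ hv) (Ideal.mul_mem_left _ _ h)

/-- every prime lies above a rational prime -/
theorem exists_prime_below {M : Type} [Field M] [NumberField M] (v : HeightOneSpectrum (𝓞 M)) {B : ℕ}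
    (hB0 : B ≠ 0) (hB : (B : 𝓞 M) ∉ v.asIdeal) : ∃ l : ℕ, l.Prime ∧ ¬ l ∣ B ∧ Abv v l := by
  have h0 : ((Ideal.absNorm v.asIdeal : ℕ) : 𝓞 M) ∈ v.asIdeal := Ideal.absNorm_mem _
  have hne : Ideal.absNorm v.asIdeal ≠ 0 := fun h => v.ne_bot (Ideal.absNorm_eq_zero_iff.1 h)
  have key : ∀ n : ℕ, n ≠ 0 → (n : 𝓞 M) ∈ v.asIdeal → ∃ l : ℕ, l.Prime ∧ (l : 𝓞 M) ∈ v.asIdeal := by
    intro n
    induction n using Nat.strong_induction_on with
    | _ n ih =>
      intro hn hmem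
      rcases Nat.lt_or_ge 1 n with h1 | h1
      · obtain ⟨p, hp, m, rfl⟩ := Nat.exists_prime_and_dvd (ne_of_gt h1)
        rw [Nat.cast_mul] at hmem
        rcases v.isPrime.mem_or_mem hmem with h2 | h2
        · exact ⟨p, hp, h2⟩
        · have hm0 : m ≠ 0 := fun h => hn (by rw [h, mul_zero])
          refine ih m ?_ hm0 h2
          have := hp.two_le
          nlinarith [Nat.pos_of_ne_zero hm0]
      · have : n = 1 := by omega
        subst this
        rw [Nat.cast_one] at hmem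
        exact absurd ((Ideal.eq_top_iff_one _).2 hmem) v.isPrime.ne_top
  obtain ⟨l, hl, h1⟩ := key _ hne h0
  refine ⟨l, hl, fun h => hB ?_, h1⟩
  obtain ⟨m, rfl⟩ := h
  rw [Nat.cast_mul]
  exact Ideal.mul_mem_right _ _ h1

end

section

variable {C F K : Type} [Field F] [NumberField F] [Field K] [NumberField K] [Algebra F K]
  {L : C → Type} [∀ c, Field (L c)] [∀ c, NumberField (L c)] [∀ c, Algebra F (L c)]
  {V : Type} [AddCommGroup V] [DistribMulAction (K ≃ₐ[F] K) V]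
  {cd : V →+ ((c : C) → (L c →ₐ[F] K) → ZMod 2)} {α : (c : C) → 𝓞 (L c)}

/-- the type is unique -/
theorem tpg_unique (hV : VB cd) {w : HeightOneSpectrum (𝓞 K)} {t t' : V}
    (h : TpG cd α w t) (h' : TpG cd α w t') : t = t' := by
  apply hV.inj
  funext c ι
  have h1 : (1 : WithZero (Multiplicative ℤ)) ≠ WithZero.exp (-1 : ℤ) := by
    rw [← WithZero.exp_zero]
    intro h
    rw [WithZero.exp_inj] at h
    omega
  rcases zmod2_cases (cd t c ι) with h2 | h2 <;> rcases zmod2_cases (cd t' c ι) with h3 | h3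
  · rw [h2, h3]
  · exact absurd (((h c ι).1 h2).symm.trans ((h' c ι).2 h3)) h1
  · exact absurd (((h' c ι).1 h3).symm.trans ((h c ι).2 h2)) h1
  · rw [h2, h3]

/-- the types are equivariant -/
theorem tpg_mv (hV : VB cd) {w w' : HeightOneSpectrum (𝓞 K)} {g : K ≃ₐ[F] K}
    (hM : Mv g w w') {t : V} (h : TpG cd α w t) : TpG cd α w' (g • t) := by
  intro c ι'
  obtain ⟨ι, rfl⟩ : ∃ ι : L c →ₐ[F] K, ι' = cp g ι := by
    refine ⟨cp g.symm ι', ?_⟩
    ext x
    change ι' x = g (g.symm (ι' x))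
    rw [AlgEquiv.apply_symm_apply]
  have h1 : cd (g • t) c (cp g ι) = cd t c ι := hV.eqv g t c ι
  have h2 : w'.valuation K (cp g ι (α c : L c)) = w.valuation K (ι (α c : L c)) :=
    val_mv hM _
  rw [h1, h2]
  exact h c ι

/-- the types exist -/
theorem tpg_ex (hV : VB cd) {th : (c : C) → 𝓞 (L c)} {B : ℕ} {D : 𝓞 F}
    (hgd : ∀ c, Gd1 F K (th c) B D (α c : L c))
    (hval : ∀ l : ℕ, l.Prime → ¬ l ∣ B → ∀ w : HeightOneSpectrum (𝓞 K), Abv w l →
      ∀ (c : C) (ι : L c →ₐ[F] K),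
      w.valuation K (ι (α c : L c)) = 1 ∨ w.valuation K (ι (α c : L c)) = WithZero.exp (-1 : ℤ))
    {l : ℕ} (hl : l.Prime) (hB : ¬ l ∣ B) {w : HeightOneSpectrum (𝓞 K)} (hw : Abv w l)
    (hD : iO F K D ∈ w.asIdeal) : ∃ t : V, TpG cd α w t := by
  choose e he1 he2 he3 using fun c => (hgd c).odd l hl hB w hw hD
  obtain ⟨t, ht⟩ := (hV.im e).2 he1
  refine ⟨t, fun c ι' => ⟨fun h => ?_, fun h => ?_⟩⟩
  · rw [ht] at h
    exact val_of_par0 ((he2 c ι').1 h) (hval l hl hB w hw c ι')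
  · rw [ht] at h
    exact val_of_par1 ((he2 c ι').2 h) (hval l hl hB w hw c ι')

end

/-- the product of the norms of the primes which contain `D` -/
theorem prod_norm_le {F : Type} [Field F] [NumberField F] {D : 𝓞 F} (hD : D ≠ 0)
    (R : Finset (HeightOneSpectrum (𝓞 F))) (hR : ∀ v ∈ R, D ∈ v.asIdeal) :
    ∏ v ∈ R, ((Ideal.absNorm v.asIdeal : ℕ) : ℝ) ≤ ((Ideal.absNorm (Ideal.span {D}) : ℕ) : ℝ) := by
  classical
  have h1 : ∏ v ∈ R, v.asIdeal ∣ Ideal.span {D} := by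
    have h2 := Finset.prod_primes_dvd (s := R.image fun v => v.asIdeal) (Ideal.span {D})
      (by
        intro a ha
        obtain ⟨v, -, rfl⟩ := Finset.mem_image.1 ha
        exact v.prime)
      (by
        intro a ha
        obtain ⟨v, hv, rfl⟩ := Finset.mem_image.1 ha
        rw [Ideal.dvd_iff_le, Ideal.span_singleton_le_iff_mem]
        exact hR v hv)
    rw [Finset.prod_image (fun v _ v' _ h => HeightOneSpectrum.ext h)] at h2
    exact h2
  have h3 : ∏ v ∈ R, Ideal.absNorm v.asIdeal ∣ Ideal.absNorm (Ideal.span {D}) := by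
    rw [← map_prod]
    exact map_dvd _ h1
  have h4 : Ideal.absNorm (Ideal.span {D}) ≠ 0 := by
    intro h
    rw [Ideal.absNorm_eq_zero_iff, Ideal.span_singleton_eq_bot] at h
    exact hD h
  have h5 := Nat.le_of_dvd (Nat.pos_of_ne_zero h4) h3
  calc ∏ v ∈ R, ((Ideal.absNorm v.asIdeal : ℕ) : ℝ) = ((∏ v ∈ R, Ideal.absNorm v.asIdeal : ℕ) : ℝ) := by
        push_cast; rfl
    _ ≤ _ := by exact_mod_cast h5

/-- **RELG** -/
theorem relg : S_NRM → S_ZEX → S_QAG → S_QDG → S_FRX → S_RELG := by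
  classical
  intro hNRM hZEX hQAG hQDG hFRX C F K _ _ _ _ _ _ _ L _ _ _ th hDat V _ _ _ cd hV ι _ Lf _ _ em rp
    hRp B1 hB1
  obtain ⟨Bz, C0, K0, hBz, hC0, hZEX⟩ := hZEX F K V ι Lf em rp hRp
  obtain ⟨Ba, hBa, hQA⟩ := hQAG C F K L th hDat V cd hV
  obtain ⟨Bm, hBm, hQM⟩ := hQDG C F K L th hDat V cd hV
  obtain ⟨Bt, hBt, hFR⟩ := hFRX F K
  choose Bd hBd hnrm using fun c => hNRM F K (L c) (th c)
  let B : ℕ := B1 * (∏ c, Bd c) * Bz * Bt * Ba * Bm
  have hB0 : B ≠ 0 := by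
    have h1 : ∏ c, Bd c ≠ 0 := Finset.prod_ne_zero_iff.2 fun c _ => hBd c
    exact mul_ne_zero (mul_ne_zero (mul_ne_zero (mul_ne_zero (mul_ne_zero hB1 h1) hBz) hBt) hBa) hBm
  have dm : Bm ∣ B := Dvd.intro_left _ rfl
  have d5 : B1 * (∏ c, Bd c) * Bz * Bt * Ba ∣ B := Dvd.intro _ rfl
  have da : Ba ∣ B := (Dvd.intro_left _ rfl).trans d5
  have d4 : B1 * (∏ c, Bd c) * Bz * Bt ∣ B := (Dvd.intro _ rfl).trans d5
  have dt : Bt ∣ B := (Dvd.intro_left _ rfl).trans d4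
  have d3 : B1 * (∏ c, Bd c) * Bz ∣ B := (Dvd.intro _ rfl).trans d4
  have dz : Bz ∣ B := (Dvd.intro_left _ rfl).trans d3
  have d2 : B1 * (∏ c, Bd c) ∣ B := (Dvd.intro _ rfl).trans d3
  have dp : (∏ c, Bd c) ∣ B := (Dvd.intro_left _ rfl).trans d2
  have d1 : B1 ∣ B := (Dvd.intro _ rfl).trans d2
  have dd : ∀ c, Bd c ∣ B := fun c => (Finset.dvd_prod_of_mem Bd (mem_univ c)).trans dp
  obtain ⟨Qa, hQA⟩ := hQA B da hB0
  obtain ⟨Qm, hQM⟩ := hQM B dm hB0
  refine ⟨B, C0, K0, Qm, Fintype.piFinset Qa, d1, hB0, hC0, ?_⟩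
  intro D δ hD hδ hgd
  have hD0 : D ≠ 0 := hD.1
  choose α η hα hη hαe hgdα hval using
    fun c => hnrm c B (dd c) D (δ c) (hδ c) (gd1_mono (hgd c) d1)
  have hval' : ∀ l : ℕ, l.Prime → ¬ l ∣ B → ∀ w : HeightOneSpectrum (𝓞 K), Abv w l →
      ∀ (c : C) (ι : L c →ₐ[F] K),
      w.valuation K (ι (α c : L c)) = 1 ∨ w.valuation K (ι (α c : L c)) = WithZero.exp (-1 : ℤ) :=
    fun l hl hlB w hw c ι' => hval c l hl hlB w hw ι'
  -- the primes of `F` containing `D`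
  have hfin : {v : HeightOneSpectrum (𝓞 F) | v.asIdeal ∣ Ideal.span {D}}.Finite :=
    Ideal.finite_factors (by rw [Ne, Ideal.zero_eq_bot, Ideal.span_singleton_eq_bot]; exact hD0)
  let R : Finset (HeightOneSpectrum (𝓞 F)) := hfin.toFinset.filter fun v => (B : 𝓞 F) ∉ v.asIdeal
  have hR : ∀ v, v ∈ R ↔ D ∈ v.asIdeal ∧ (B : 𝓞 F) ∉ v.asIdeal := by
    intro v
    rw [Finset.mem_filter, Set.Finite.mem_toFinset, Set.mem_ofPred_eq, Ideal.dvd_iff_le,
      Ideal.span_singleton_le_iff_mem]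
  let τ : HeightOneSpectrum (𝓞 K) → V := fun w =>
    if h : ∃ t : V, TpG cd α w t then h.choose else 0
  have hτ : ∀ l : ℕ, l.Prime → ¬ l ∣ B → ∀ w : HeightOneSpectrum (𝓞 K), Abv w l →
      iO F K D ∈ w.asIdeal → TpG cd α w (τ w) := by
    intro l hl hlB w hw hDw
    have hex' := tpg_ex hV hgdα hval' hl hlB hw hDw
    have h1 : τ w = hex'.choose := dif_pos hex'
    rw [h1]
    exact hex'.choose_spec
  obtain ⟨z, hz1, hz2, hz3, hz4, N, hN1, hN2⟩ := hZEX R τ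
    (by
      intro v hv h'
      refine ((hR v).1 hv).2 ?_
      obtain ⟨m, hm⟩ := dz
      rw [hm, Nat.cast_mul]
      exact Ideal.mul_mem_right _ _ h')
    (by
      intro v hv w w' g hov hMv
      obtain ⟨h1, h2⟩ := (hR v).1 hv
      obtain ⟨l, hl, hlB, hvl⟩ := exists_prime_below v hB0 h2
      have hw : Abv w l := by
        have := (hov (l : 𝓞 F)).1 hvl
        rwa [map_natCast] at this
      have hDw : iO F K D ∈ w.asIdeal := (hov D).1 h1
      have hw' : Abv w' l := (hMv (l : 𝓞 K) (l : 𝓞 K) (by simp)).1 hw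
      have hDw' : iO F K D ∈ w'.asIdeal := (mv_iO hMv D).1 hDw
      exact tpg_unique hV (hτ l hl hlB w' hw' hDw') (tpg_mv hV hMv (hτ l hl hlB w hw hDw)))
  have hRel0 : RG0 th cd B D α z := by
    refine ⟨sqF_mono hD d1, hgdα, hα, hval', hz1, hz2, ?_⟩
    intro l hl hlB w hw t
    have h1 := hz4 l hl (fun h' => hlB (h'.trans dz)) w hw t
    have h2 : iO F K D ∈ w.asIdeal ∧ TpG cd α w t ↔ (∃ v ∈ R, Ov w v) ∧ τ w = t := by
      constructor
      · rintro ⟨h3, h4⟩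
        obtain ⟨-, -, -, h5⟩ := hFR l hl fun h' => hlB (h'.trans dt)
        obtain ⟨v, hov, hvl, -⟩ := h5 w hw
        exact ⟨⟨v, (hR v).2 ⟨(hov D).2 h3, not_mem_of_abv hl hvl hlB⟩, hov⟩,
          tpg_unique hV (hτ l hl hlB w hw h3) h4⟩
      · rintro ⟨⟨v, hv, hov⟩, rfl⟩
        have h3 : iO F K D ∈ w.asIdeal := (hov D).1 ((hR v).1 hv).1
        exact ⟨h3, hτ l hl hlB w hw h3⟩
    rw [h2]
    exact h1
  choose a ha q hq hqe using fun c => hQA D α z hRel0 c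
  obtain ⟨μ, hμ, s, hs, hse⟩ := hQM D α z hRel0
  refine ⟨μ, hμ, a, Fintype.mem_piFinset.2 ha, α, z,
    ⟨hRel0, fun c => ⟨q c, hq c, hqe c⟩, ⟨s, hs, hse⟩⟩, hz3, ⟨N, hN1, ?_⟩,
    fun c => ⟨η c, hη c, hαe c⟩⟩
  exact hN2.trans (mul_le_mul_of_nonneg_left (prod_norm_le hD0 R fun v hv => ((hR v).1 hv).1) hC0.le)

end Pool.Agent.Q124.ESN
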